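import Pool.Agent.W425.BF.Stm

/-!
BF-CNT: measure and residues.
-/

set_option autoImplicit false

namespace Pool.Agent.W915.BF

open MeasureTheory Pool.Agent.W425.BF

section

variable {p : ℕ} [hp : Fact p.Prime] {n : ℕ}

theorem toZMod_eq_zero {x : ℤ_[p]} : PadicInt.toZMod x = 0 ↔ ‖x‖ < 1 := by
  rw [← RingHom.mem_ker, PadicInt.ker_toZMod, IsLocalRing.mem_maximalIdeal, PadicInt.mem_nonunits]

theorem toZMod_surj (c : ZMod p) : ∃ a : ℤ_[p], PadicInt.toZMod a = c := by
  refine ⟨((c.val : ℕ) : ℤ_[p]), ?_⟩
  rw [map_natCast, ZMod.natCast_val, ZMod.cast_id', id]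

/-- the residue class of `s` -/
def cl (s : Fin n → ZMod p) : Set (Fin n → ℤ_[p]) := {y | (fun x => PadicInt.toZMod (y x)) = s}

theorem cl_open (s : Fin n → ZMod p) : IsOpen (cl s) := by
  choose t ht using fun x => toZMod_surj (s x)
  have h : cl s = ⋂ x : Fin n, {y | ‖y x - t x‖ < 1} := by
    ext y
    rw [Set.mem_iInter]
    constructor
    · intro hy x
      have h1 : PadicInt.toZMod (y x) = s x := congrFun hy x
      change ‖y x - t x‖ < 1
      rw [← toZMod_eq_zero, map_sub, h1, ht, sub_self]
    · intro hy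
      funext x
      have h1 : ‖y x - t x‖ < 1 := hy x
      rw [← toZMod_eq_zero, map_sub, ht, sub_eq_zero] at h1
      exact h1
  rw [h]
  apply isOpen_iInter_of_finite
  intro x
  exact isOpen_lt (((continuous_apply x).sub continuous_const).norm) continuous_const

variable [MeasurableSpace (Fin n → ℤ_[p])] [BorelSpace (Fin n → ℤ_[p])]

theorem cl_measure (s : Fin n → ZMod p) :
    (Measure.addHaar : Measure (Fin n → ℤ_[p])) (cl s) =
      (Measure.addHaar : Measure (Fin n → ℤ_[p])) (cl 0) := by
  choose t ht using fun x => toZMod_surj (s x)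
  have h : cl s = (fun y => -t + y) ⁻¹' (cl (0 : Fin n → ZMod p)) := by
    ext y
    constructor
    · intro hy
      funext x
      have h1 : PadicInt.toZMod (y x) = s x := congrFun hy x
      change PadicInt.toZMod (-t x + y x) = 0
      rw [map_add, map_neg, h1, ht, neg_add_cancel]
    · intro hy
      funext x
      have h1 : PadicInt.toZMod (-t x + y x) = 0 := congrFun hy x
      rw [map_add, map_neg, ht, neg_add_eq_zero] at h1
      exact h1.symm
  rw [h, measure_preimage_add]

theorem cl_sum (S : Set (Fin n → ZMod p)) :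
    (Measure.addHaar : Measure (Fin n → ℤ_[p])) {y | (fun x => PadicInt.toZMod (y x)) ∈ S} =
      (S.ncard : ENNReal) * (Measure.addHaar : Measure (Fin n → ℤ_[p])) (cl 0) := by
  classical
  have hfin : S.Finite := Set.toFinite S
  have h : {y : Fin n → ℤ_[p] | (fun x => PadicInt.toZMod (y x)) ∈ S} =
      ⋃ s ∈ hfin.toFinset, cl s := by
    ext y
    simp only [Set.mem_iUnion, Set.Finite.mem_toFinset, exists_prop]
    constructor
    · intro hy
      exact ⟨_, hy, rfl⟩
    · rintro ⟨s, hs, hy⟩
      have h1 : (fun x => PadicInt.toZMod (y x)) = s := hy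
      change (fun x => PadicInt.toZMod (y x)) ∈ S
      rw [h1]
      exact hs
  rw [h, measure_biUnion_finset]
  · rw [Finset.sum_congr rfl (fun s _ => cl_measure s), Finset.sum_const, nsmul_eq_mul,
      Set.ncard_eq_toFinset_card S hfin]
  · intro s _ s' _ hss
    rw [Function.onFun, Set.disjoint_left]
    intro y h1 h2
    exact hss (h1.symm.trans h2)
  · intro s _
    exact (cl_open s).measurableSet

end

theorem main : TaskCNT := by
  intro p _ n _ _ S
  have h1 := cl_sum S
  have h2 := cl_sum (p := p) (n := n) Set.univ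
  have hu : {y : Fin n → ℤ_[p] | (fun x => PadicInt.toZMod (y x)) ∈ (Set.univ :
      Set (Fin n → ZMod p))} = Set.univ := by
    ext y; simp
  rw [hu, Set.ncard_univ, Nat.card_eq_fintype_card, Fintype.card_fun, ZMod.card,
    Fintype.card_fin] at h2
  rw [h1, h2, ENNReal.toReal_mul, ENNReal.toReal_mul, ENNReal.toReal_natCast,
    ENNReal.toReal_natCast]
  have hp0 : (p : ℝ) ≠ 0 := by
    exact_mod_cast (Fact.out : p.Prime).ne_zero
  push_cast
  field_simp

end Pool.Agent.W915.BF
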